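import Pool.Agent.Y269.HH.Main

set_option autoImplicit false

/-! A separable C*-algebra with a faithful tracial state and without the Haagerup property, weakly
dense in a finite von Neumann algebra with the Haagerup property. -/

open scoped InnerProductSpace CStarAlgebra ComplexOrder
open Pool.Agent.W665.HAP Pool.Agent.Y269.HH

namespace Pool.Agent.Results.MP_9dda70_an.WeaklyDenseSubalgebra

/-- There are a Hilbert space `K`, a vector `Ω`, a C*-algebra `A` with a faithful tracial state `τ`
represented faithfully on `K` by `π`, with `τ` the vector state of `Ω`, and a separable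
C*-subalgebra `B` of `A` (through the embedding `j`, with norm closed range) such that `π A` is the
von Neumann algebra generated by `π B`, `Ω` is cyclic for `π B` (so that `K` is the GNS space of
the restriction of `τ` to `B`), `(A, τ)` has the Haagerup property and `(B, τ|B)` does not. -/
theorem result : ∃ (K : Type) (_ : NormedAddCommGroup K) (_ : InnerProductSpace ℂ K)
    (_ : CompleteSpace K) (Ω : K)
    (A : Type) (_ : CStarAlgebra A) (_ : PartialOrder A) (_ : StarOrderedRing A)
    (B : Type) (_ : CStarAlgebra B) (_ : PartialOrder B) (_ : StarOrderedRing B)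
    (τ : A →ₚ[ℂ] ℂ) (σ : B →ₚ[ℂ] ℂ) (π : Rep A K) (j : Mor B A),
    IsFaithfulTracialState τ ∧ IsVectorState τ π Ω ∧ GeneratesVN π j ∧
      IsCyclic (resRep π j) Ω ∧ TopologicalSpace.SeparableSpace B ∧ IsRestriction τ σ j ∧
      HaagerupProperty τ ∧ ¬ HaagerupProperty σ :=
  Pool.Agent.Y269.HH.main

end Pool.Agent.Results.MP_9dda70_an.WeaklyDenseSubalgebra
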